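import Pool.Agent.W623.SecF.Fg
import Pool.Agent.W623.SecF.FV
import Pool.Agent.W623.SecF.Kt

/-!
# The weak birational section conjecture for ramified twists over finitely generated fields

Let `k` be a field of characteristic zero, `A` a discrete valuation ring of `k` whose residue field `κ`
is any finitely generated field of characteristic different from 2, for instance, if `k` is finitely
generated over `ℚ`, the local ring of a divisor on a scheme of finite type over `ℤ` with function
field `k`.  Let `f ∈ A[x]` be a polynomial of even degree `≥ 4` with unit leading coefficient and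
separable reduction, and let `a ∈ k` have odd valuation.  If the absolute Galois group of the
function field of the curve `a yⁿ = f(x)`, `n` even, has a section over `G_k`, or if the fundamental
group of an open subcurve has one, then the reduction of `f` has a root in `κ`.

In particular, let `K` be any field finitely generated over `ℚ`, `k = K(t)` the rational function
field and `f ∈ K[x]` separable of even degree `≥ 4`.  Let `a ∈ K(t)` be a rational function with a zero
or pole of odd order at some `K`-rational point of the line (a change of the coordinate `t` moves the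
point to `t = 0`).  Then the curve `a(t) yⁿ = f(x)` over `K(t)`, `n` even, has birational sections
only if `f` has a root in `K`, and in this case it has a rational point.  So for all these curves the
weak form of the birational section conjecture holds over `K(t)`: there is a section if and only if
there is a rational point.  In `MP_e66f84_ag.HigherRank` we had to assume that some element of the
Galois group of `K` fixes no root of `f`; this excludes all `f` that have a root modulo almost all
primes, such as `(x² - 13)(x² - 17)(x² - 221)` for `K = ℚ`.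

The fundamental group is described through valuations.  Let `U` be a smooth geometrically connected
curve over `k` with function field `F`, let `Ω` be an algebraic closure of `F`, and let `F_U` be the
maximal extension of `F` inside `Ω` which is unramified over the closed points of `U`, that is, over
their local rings, which are valuation rings of `F`.  Then `π₁(U) = Gal(F_U/F)`, and the map
`π₁(U) → G_k` is the restriction of automorphisms to the algebraic closure of `k` in `Ω`.  For
`U = ∅` one gets `F_U = Ω` and the sections of `Gal(Ω/F) → G_k`.

Proof.  By induction on the number of generators, any finite subset of `κ` is contained in a valuation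
ring of `κ` with finite residue field.  The composite `O` of such a ring with `A` is a valuation ring
of `k` with finite residue field of odd characteristic over which `f` has good reduction.  As in
`MP_e66f84_ag.HigherRank` a section and a Frobenius element at `O` give a partition of the roots of `f`
in two classes, by the parities of the valuations at `A` of constants attached to the functions
`(x - θ)/(x - θ')`, and by the argument on elliptic curves with good reduction given there, applied to
a power of Frobenius that fixes all roots, one of the two classes has a single element.  As the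
partition depends only on the section and on the place above `A`, it is stable under the decomposition
group of this place.  So the reduction of the root `θ` in the class with one element is fixed by the
Galois group of `κ`.
-/

open Polynomial

namespace Pool.Agent.Results.MP_8312c9_nt.RamifiedTwists

universe u v w

section definitions

variable (k : Type u) (F : Type v) (Ω : Type w) [Field k] [Field F] [Field Ω] [Algebra k F]
  [Algebra F Ω] [Algebra k Ω]

/-- The inertia group of the valuation ring `W` of `Ω`, as a subgroup of `Gal(Ω/F)`: the
automorphisms of `Ω` over `F` that map `W` onto itself and act as the identity on its residue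
field. -/
noncomputable def inertia (W : ValuationSubring Ω) : Subgroup (Ω ≃ₐ[F] Ω) :=
  (W.inertiaSubgroup F).map (W.decompositionSubgroup F).subtype

/-- `F_U`, for a set `U` of valuation rings of `F`: the elements of `Ω` fixed by the inertia groups
of all valuation rings `W` of `Ω` with `W ∩ F ∈ U`.  If `Ω` is an algebraic closure of a field `F`
of characteristic zero, this is the maximal extension of `F` in `Ω` unramified over `U`. -/
noncomputable def unramified (U : Set (ValuationSubring F)) : IntermediateField F Ω :=
  ⨅ W : {W : ValuationSubring Ω // W.comap (algebraMap F Ω) ∈ U},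
    IntermediateField.fixedField (inertia F Ω W.1)

/-- The map `τ : M → M` acts as `σ : K → K` on the elements that the fields `K` and `M` have in
common when they are regarded as subfields of `Ω` through `i` and `j`. -/
def ActsAs {K M Ω : Type*} [Field K] [Field M] [Field Ω] (i : K →+* Ω) (j : M →+* Ω) (σ : K → K)
    (τ : M → M) : Prop :=
  ∀ c z, j z = i c → j (τ z) = i (σ c)

/-- Let `k ⊆ K ⊆ Ω` and `F ⊆ M ⊆ Ω` be fields.  A splitting of `Gal(M/F) → Gal(K/k)`: a continuous
homomorphism `s` from `Gal(K/k)` to `Gal(M/F)` such that `s(σ)` acts as `σ` on the elements of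
`K ∩ M`. -/
structure Splitting (K M : Type*) [Field K] [Field M] [Algebra k K] [Algebra F M] [Algebra K Ω]
    [Algebra M Ω] where
  /-- the homomorphism `Gal(K/k) → Gal(M/F)` -/
  toHom : (K ≃ₐ[k] K) →* (M ≃ₐ[F] M)
  cont : Continuous toHom
  compat : ∀ σ : K ≃ₐ[k] K, ActsAs (algebraMap K Ω) (algebraMap M Ω) σ (toHom σ)

/-- The sections of `π₁(U) = Gal(F_U/F) → G_k`: the continuous homomorphisms `s` from
`G_k = Gal(k̄/k)` to `Gal(F_U/F)`, where `k̄` is the algebraic closure of `k` in `Ω`, such that
`s(σ)` acts as `σ` on the elements of `k̄`. -/
def GaloisSection (U : Set (ValuationSubring F)) : Type w :=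
  Splitting k F Ω (algebraicClosure k Ω) (unramified F Ω U)

end definitions

/-- The smooth projective curve `a yⁿ = f(x)`, where `n` divides the degree of `f`, has no point
over `k`: neither in the affine part nor at infinity. -/
def NoPoint {k : Type u} [Field k] (n : ℕ) (a : k) (f : k[X]) : Prop :=
  (¬ ∃ x y : k, a * y ^ n = f.eval x) ∧ ¬ ∃ r : k, a * r ^ n = f.leadingCoeff

/-- Let `F` be any field over `k` that contains a point `(x, y)` of the curve `a yⁿ = f(x)`, for
instance the function field of the curve, and let `Ω` be an algebraic closure of `F`.  Then for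
every set `U` of valuation rings of `F` over `k` there is no section of `π₁(U) → G_k`.  If `F` is the
function field of the curve, such `U` are given by the smooth projective curve and by all its open
subcurves. -/
def NoSection {k : Type u} [Field k] (n : ℕ) (a : k) (f : k[X]) : Prop :=
  ∀ (F : Type v) (Ω : Type w) [Field F] [Field Ω] [Algebra k F] [Algebra F Ω] [Algebra k Ω]
    [IsScalarTower k F Ω] [IsAlgClosure F Ω] (x y : F) (U : Set (ValuationSubring F)),
    algebraMap k F a * y ^ n = aeval x f → (∀ O ∈ U, ∀ c : k, algebraMap k F c ∈ O) →
      IsEmpty (GaloisSection k F Ω U)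

/-- The field `κ` is finitely generated (over its prime field). -/
def FGField (κ : Type) [Field κ] : Prop := ∃ s : Finset κ, Subfield.closure (s : Set κ) = ⊤

/-- `a` has odd valuation: it is the product of a unit and an odd power of a uniformiser of `A`. -/
def OddValuation {k : Type u} [Field k] (A : ValuationSubring k) (a : k) : Prop :=
  ∃ (ϖ t : A) (m : ℤ), Irreducible ϖ ∧ IsUnit t ∧ Odd m ∧ a = (t : k) * (ϖ : k) ^ m

/-- `a = t^m p(t)/q(t)` with `m` odd and `p(0), q(0) ≠ 0`: a rational function in `t` of odd order at
the point `t = 0`. -/
def OddOrder (K : Type) {k : Type u} [Field K] [Field k] [Algebra K k] (t a : k) : Prop :=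
  ∃ (m : ℤ) (p q : K[X]), Odd m ∧ p.eval 0 ≠ 0 ∧ q.eval 0 ≠ 0 ∧
    a = t ^ m * (aeval t p / aeval t q)

lemma exists_val {κ : Type} [Field κ] (h : FGField κ) :
    ∀ S : Finset κ, ∃ O : ValuationSubring κ, Finite (IsLocalRing.ResidueField O) ∧
      (2 : κ)⁻¹ ∈ O ∧ ∀ s ∈ S, s ∈ O := by
  classical
  intro S
  obtain ⟨s, hs⟩ := h
  obtain ⟨O, hO, h1⟩ := Pool.Agent.W623.SecF.FV.of_fg s hs (insert (2 : κ)⁻¹ S)
  exact ⟨O, hO, h1 _ (Finset.mem_insert_self _ _), fun s hs => h1 s (Finset.mem_insert_of_mem hs)⟩

/-- (1), the general theorem -/
theorem general (k : Type u) [Field k] [CharZero k] (A : ValuationSubring k)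
    [IsDiscreteValuationRing A] (κ : Type) [Field κ] (ρ : A →+* κ) (hρ : Function.Surjective ρ)
    (hκ : FGField κ) (h2 : (2 : κ) ≠ 0) (f : A[X]) (hlc : IsUnit f.leadingCoeff)
    (hs : (f.map ρ).Separable) (hev : Even f.natDegree) (h4 : 4 ≤ f.natDegree)
    (hroot : ∀ r : κ, (f.map ρ).eval r ≠ 0) (a : k) (ha : OddValuation A a) (n : ℕ) (hn : 0 < n)
    (hne : Even n) :
    NoPoint n a (f.map (algebraMap A k)) ∧ NoSection.{u, v, w} n a (f.map (algebraMap A k)) := by
  obtain ⟨ϖ, t, m, hϖ, ht, hm, ha⟩ := ha
  obtain ⟨l, rfl⟩ := hne
  have hval := exists_val hκ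
  have hker : ∀ b : A, b ∈ IsLocalRing.maximalIdeal A → ρ b = 0 := by
    intro b hb
    have hmax : (RingHom.ker ρ).IsMaximal := RingHom.ker_isMaximal_of_surjective ρ hρ
    rw [← IsLocalRing.eq_maximalIdeal hmax] at hb
    exact hb
  have hno : ∀ b : A, f.eval b ∉ IsLocalRing.maximalIdeal A := by
    intro b hb
    apply hroot (ρ b)
    rw [eval_map, eval₂_at_apply, hker _ hb]
  have hlcf : (f.map (algebraMap A k)).leadingCoeff = algebraMap A k f.leadingCoeff :=
    leadingCoeff_map_of_injective (IsFractionRing.injective A k) f
  refine ⟨⟨?_, ?_⟩, ?_⟩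
  · rintro ⟨x, y, hxy⟩
    refine Pool.Agent.W623.SecC.no_affine_point ϖ hϖ f hlc hev hno a t ht m hm ha x (y ^ l) ?_
    rw [← hxy, ← pow_mul, mul_two]
  · rintro ⟨r, hr⟩
    refine Pool.Agent.W623.SecC.no_infinite_point ϖ hϖ f hlc a t ht m hm ha (r ^ l) ?_
    rw [← hlcf, ← hr, ← pow_mul, mul_two]
  · intro F Ω _ _ _ _ _ _ _ x y U hxy hU
    have hcl : IsAlgClosed Ω := IsAlgClosure.isAlgClosed F
    have halg : Algebra.IsAlgebraic F Ω := IsAlgClosure.isAlgebraic
    refine ⟨fun s => ?_⟩
    obtain ⟨b, hb⟩ := Pool.Agent.W623.SecC.fg_root A ρ hρ f hlc hs ϖ hϖ a t ht m hm ha hev h2 hval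
      h4 U hU ⟨s.toHom, s.cont, s.compat⟩ x (y ^ l) (by rw [← hxy, ← pow_mul, mul_two])
    exact hno b hb

/-- (2), rational function fields -/
theorem rational (K : Type) [Field K] [CharZero K] (hK : FGField K) (k : Type u) [Field k]
    [Algebra K k] (t : k) (ht : Transcendental K t)
    (htop : IntermediateField.adjoin K {t} = (⊤ : IntermediateField K k)) (f : K[X])
    (hs : f.Separable) (hev : Even f.natDegree) (h4 : 4 ≤ f.natDegree)
    (hroot : ∀ r : K, f.eval r ≠ 0) (a : k) (ha : OddOrder K t a) (n : ℕ) (hn : 0 < n)
    (hne : Even n) :
    NoPoint n a (f.map (algebraMap K k)) ∧ NoSection.{u, v, w} n a (f.map (algebraMap K k)) := by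
  have hcz : CharZero k := charZero_of_injective_algebraMap (algebraMap K k).injective
  obtain ⟨A, hA, ρ, i, hρ, hρi, hi, hX, hunit⟩ := Pool.Agent.W623.SecF.exists_dvr t ht htop
  obtain ⟨m, p, q, hm, hp, hq, ha⟩ := ha
  have hf0 : f ≠ 0 := hs.ne_zero
  set g : A[X] := f.map (i.comp C) with hg
  have hρC : (ρ.comp (i.comp C)) = RingHom.id K := by
    ext c
    change ρ (i (C c)) = c
    rw [hρi, eval_C]
  have hgρ : g.map ρ = f := by
    rw [hg, Polynomial.map_map, hρC, Polynomial.map_id]
  have hgk : g.map (algebraMap A k) = f.map (algebraMap K k) := by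
    rw [hg, Polynomial.map_map]
    congr 1
    ext c
    change ((i (C c) : A) : k) = _
    rw [hi, aeval_C]
  have hinj : Function.Injective (i.comp C) := (i.comp C).injective
  have hdeg : g.natDegree = f.natDegree := natDegree_map_eq_of_injective hinj f
  have hlc : IsUnit g.leadingCoeff := by
    rw [hg, leadingCoeff_map_of_injective hinj]
    exact (isUnit_iff_ne_zero.2 (leadingCoeff_ne_zero.2 hf0)).map (i.comp C)
  have hq' := hunit q hq
  obtain ⟨v, hv⟩ := hq'
  have ha' : OddValuation A a := by
    refine ⟨i X, i p * ((v⁻¹ : Aˣ) : A), m, hX, (hunit p hp).mul (Units.isUnit _), hm, ?_⟩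
    have h1 : ((i X : A) : k) = t := by rw [hi, aeval_X]
    have h2 : (((v⁻¹ : Aˣ) : A) : k) = (aeval t q)⁻¹ := by
      have h3 : ((v : A) : k) * (((v⁻¹ : Aˣ) : A) : k) = 1 := by
        have h4 := v.mul_inv
        exact_mod_cast congrArg (fun z : A => (z : k)) h4
      rw [hv, hi] at h3
      exact eq_inv_of_mul_eq_one_right h3
    have h5 : ((i p * ((v⁻¹ : Aˣ) : A) : A) : k) = aeval t p / aeval t q := by
      change ((i p : A) : k) * (((v⁻¹ : Aˣ) : A) : k) = _
      rw [hi, h2, div_eq_mul_inv]
    rw [h5, h1, ha, mul_comm]
  have h6 := general.{u, v, w} k A K ρ hρ hK two_ne_zero g hlc (by rwa [hgρ]) (by rwa [hdeg])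
    (by rwa [hdeg]) (by rwa [hgρ]) a ha' n hn hne
  rwa [hgk] at h6

/-- (1) Let `k` be a field of characteristic zero, `A` a discrete valuation ring of `k` with residue
field `κ`, a finitely generated field of characteristic different from 2.  Let `f ∈ A[x]` have even
degree `≥ 4` and unit leading coefficient, and let its reduction be separable without a root in `κ`.
Let `a ∈ k` have odd valuation at `A` and let `n ≥ 2` be even.  Then the curve `a yⁿ = f(x)` has no
point over `k` and no section, also birationally.  (2) Let `K` be a finitely generated field of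
characteristic zero, `k = K(t)` with `t` transcendental over `K`, and let `f ∈ K[x]` be separable of
even degree `≥ 4` without a root in `K`.  Let `a ∈ k` be a rational function in `t` that has odd order
at `t = 0` and let `n ≥ 2` be even.  Then the curve `a yⁿ = f(x)` has no point over `k` and no section,
also birationally. -/
theorem result :
    (∀ (k : Type u) [Field k] [CharZero k] (A : ValuationSubring k) [IsDiscreteValuationRing A]
      (κ : Type) [Field κ] (ρ : A →+* κ), Function.Surjective ρ → FGField κ → (2 : κ) ≠ 0 →
      ∀ f : A[X], IsUnit f.leadingCoeff → (f.map ρ).Separable → Even f.natDegree →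
      4 ≤ f.natDegree → (∀ r : κ, (f.map ρ).eval r ≠ 0) → ∀ a : k, OddValuation A a →
      ∀ n : ℕ, 0 < n → Even n →
      NoPoint n a (f.map (algebraMap A k)) ∧ NoSection.{u, v, w} n a (f.map (algebraMap A k))) ∧
    (∀ (K : Type) [Field K] [CharZero K], FGField K → ∀ (k : Type u) [Field k] [Algebra K k]
      (t : k), Transcendental K t →
      IntermediateField.adjoin K {t} = (⊤ : IntermediateField K k) →
      ∀ f : K[X], f.Separable → Even f.natDegree → 4 ≤ f.natDegree →
      (∀ r : K, f.eval r ≠ 0) → ∀ a : k, OddOrder K t a → ∀ n : ℕ, 0 < n → Even n →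
      NoPoint n a (f.map (algebraMap K k)) ∧ NoSection.{u, v, w} n a (f.map (algebraMap K k))) :=
  ⟨fun k _ _ A _ κ _ ρ hρ hκ h2 f hlc hs hev h4 hroot a ha n hn hne =>
    general k A κ ρ hρ hκ h2 f hlc hs hev h4 hroot a ha n hn hne,
  fun K _ _ hK k _ _ t ht htop f hs hev h4 hroot a ha n hn hne =>
    rational K hK k t ht htop f hs hev h4 hroot a ha n hn hne⟩

end Pool.Agent.Results.MP_8312c9_nt.RamifiedTwists
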